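import Pool.Agent.W221.NS.Stm2
import Pool.Agent.W335.MD.CT

/-!
# ME-CTM: continuity in time of the quantities on moving balls
-/

set_option autoImplicit false

open MeasureTheory Set Metric
open scoped ContDiff

namespace Pool.Agent.W298.ME.CTM

open H459R3.NS W221.NS W335.MD

theorem shift (f : V → ℝ) (y : V) (ρ : ℝ) :
    ∫ z in ball y ρ, f z = ∫ z in ball (0 : V) ρ, f (y + z) := by
  have h := (measurePreserving_add_left (volume : Measure V) y).setIntegral_preimage_emb
    (MeasurableEquiv.addLeft y).measurableEmbedding f (ball y ρ)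
  rw [← h]
  congr 2
  ext z
  simp [mem_ball, dist_eq_norm]

theorem t_CTM (h : S_PCONT) : S_CTM := by
  intro α β ρ W y hW hy
  have key : ∀ F : ℝ → V → ℝ,
      ContinuousOn (fun z : ℝ × V => F z.1 z.2) (Ioo α β ×ˢ univ) →
      ContinuousOn (fun t => ∫ z in ball (y t) ρ, F t z) (Ioo α β) := by
    intro F hF
    have h1 : ContinuousOn (fun z : ℝ × V => F z.1 (y z.1 + z.2)) (Ioo α β ×ˢ univ) := by
      have h2 : ContinuousOn (fun z : ℝ × V => (z.1, y z.1 + z.2)) (Ioo α β ×ˢ univ) := by
        refine continuousOn_fst.prodMk (ContinuousOn.add ?_ continuousOn_snd)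
        exact hy.comp continuousOn_fst fun z hz => hz.1
      exact hF.comp h2 fun z hz => ⟨hz.1, mem_univ _⟩
    have h3 := h α β (fun t z => F t (y t + z)) 0 ρ h1
    refine h3.congr fun t _ => ?_
    exact shift (F t) (y t) ρ
  exact ⟨key (fun t z => nsq (W t) z) (nsq_cont hW), key (fun t z => gsq (W t) z) (gsq_cont hW)⟩

end Pool.Agent.W298.ME.CTM
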