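import Pool.Agent.W221.NS.Stm2

/-!
# ME-PATH: the paths
-/

set_option autoImplicit false

open MeasureTheory Set Metric
open scoped ContDiff NNReal

namespace Pool.Agent.W298.ME.PATH

open H459R3.NS W221.NS

/-- the cut-off -/
noncomputable def zz : ContDiffBump (0 : V) := ⟨3 / 8, 1 / 2, by norm_num, by norm_num⟩

theorem zz_one {x : V} (hx : x ∈ ball (0 : V) (3 / 8)) : zz x = 1 :=
  zz.one_of_mem_closedBall (ball_subset_closedBall hx)

theorem zz_zero {x : V} (hx : x ∉ ball (0 : V) (1 / 2)) : zz x = 0 := by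
  apply zz.zero_of_le_dist
  rw [mem_ball, not_lt] at hx
  exact hx

theorem t_PATH : S_PATH := by
  refine ⟨1 / 16, by norm_num, ?_⟩
  intro v W G hyp a ha s hs
  obtain ⟨hv, hW, hsl, hGi, hGe⟩ := hyp
  set F : ℝ → V → V := fun t x => zz x • (v t x - W t x) with hF
  have hopen : IsOpen (Ioo (-1 : ℝ) 0 ×ˢ (univ : Set V)) := isOpen_Ioo.prod isOpen_univ
  have hFc : ContDiffOn ℝ ∞ (fun z : ℝ × V => F z.1 z.2) (Ioo (-1) 0 ×ˢ univ) := by
    have h1 : ContDiff ℝ ∞ (fun z : ℝ × V => zz z.2) := zz.contDiff.comp contDiff_snd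
    exact h1.contDiffOn.smul (hv.sub hW)
  have hF0 : ∀ t, ∀ x ∉ ball (0 : V) (1 / 2), F t x = 0 := by
    intro t x hx
    rw [hF]
    simp only
    rw [zz_zero hx, zero_smul]
  set α : ℝ := s - 1 / 7 with hα
  set β : ℝ := s / 2 with hβ
  have hs1 := hs.1
  have hs2 := hs.2
  have hαβ : α < β := by rw [hα, hβ]; linarith
  have hsub : Icc α β ⊆ Ioo (-1 : ℝ) 0 := by
    intro t ht
    constructor
    · have := ht.1; rw [hα] at this; linarith
    · have := ht.2; rw [hβ] at this; linarith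
  -- bounds on the compact set
  have hK : IsCompact (Icc α β ×ˢ closedBall (0 : V) 1) :=
    isCompact_Icc.prod (isCompact_closedBall _ _)
  have hKsub : Icc α β ×ˢ closedBall (0 : V) 1 ⊆ Ioo (-1 : ℝ) 0 ×ˢ (univ : Set V) :=
    fun z hz => ⟨hsub hz.1, trivial⟩
  obtain ⟨M, hM⟩ := hK.exists_bound_of_continuousOn (hFc.continuousOn.mono hKsub)
  set Fu : ℝ × V → V := fun z => F z.1 z.2 with hFu
  have hfc : ContinuousOn (fderiv ℝ Fu) (Ioo (-1 : ℝ) 0 ×ˢ (univ : Set V)) :=
    hFc.continuousOn_fderiv_of_isOpen hopen (by norm_cast)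
  obtain ⟨C, hC⟩ := hK.exists_bound_of_continuousOn (hfc.mono hKsub)
  have hFd : ∀ t ∈ Ioo (-1 : ℝ) 0, ∀ x : V, HasFDerivAt Fu (fderiv ℝ Fu (t, x)) (t, x) := by
    intro t ht x
    have h1 : (t, x) ∈ Ioo (-1 : ℝ) 0 ×ˢ (univ : Set V) := ⟨ht, trivial⟩
    exact ((hFc.differentiableOn (by norm_cast)) _ h1).differentiableAt
      (hopen.mem_nhds h1) |>.hasFDerivAt
  have hUd : ∀ t ∈ Ioo (-1 : ℝ) 0, ∀ x : V, HasFDerivAt (F t)
      ((fderiv ℝ Fu (t, x)).comp (ContinuousLinearMap.inr ℝ ℝ V)) x := by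
    intro t ht x
    exact (hFd t ht x).comp x (hasFDerivAt_prodMk_right t x)
  have hM' : ∀ t ∈ Icc α β, ∀ x, ‖F t x‖ ≤ (M.toNNReal : ℝ≥0) := by
    intro t ht x
    by_cases hx : x ∈ closedBall (0 : V) 1
    · exact (hM (t, x) ⟨ht, hx⟩).trans (Real.le_coe_toNNReal M)
    · rw [hF0 t x, norm_zero]
      · exact NNReal.coe_nonneg _
      · intro h
        apply hx
        exact ball_subset_closedBall (ball_subset_ball (by norm_num) h)
  have hL' : ∀ t ∈ Icc α β, LipschitzWith C.toNNReal (F t) := by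
    intro t ht
    refine lipschitzWith_of_nnnorm_fderiv_le (fun x => (hUd t (hsub ht) x).differentiableAt) ?_
    intro x
    by_cases hx : x ∈ closedBall (0 : V) 1
    · rw [(hUd t (hsub ht) x).fderiv, ← NNReal.coe_le_coe, coe_nnnorm]
      refine le_trans ?_ ((hC (t, x) ⟨ht, hx⟩).trans (Real.le_coe_toNNReal C))
      refine (ContinuousLinearMap.opNorm_comp_le _ _).trans ?_
      have h1 : ‖ContinuousLinearMap.inr ℝ ℝ V‖ ≤ 1 := ContinuousLinearMap.norm_inr_le_one _ _ _
      exact mul_le_of_le_one_right (norm_nonneg _) h1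
    · have h1 : F t =ᶠ[nhds x] fun _ => (0 : V) := by
        have h2 : (closedBall (0 : V) 1)ᶜ ∈ nhds x :=
          isClosed_closedBall.isOpen_compl.mem_nhds hx
        filter_upwards [h2] with y hy
        apply hF0
        intro h
        exact hy (ball_subset_closedBall (ball_subset_ball (by norm_num) h))
      have h3 : fderiv ℝ (F t) x = 0 := by
        rw [h1.fderiv_eq]
        simp
      rw [h3, nnnorm_zero]
      exact zero_le
  have hFc' : ContDiffOn ℝ ∞ (Function.uncurry F) (Icc α β ×ˢ univ) :=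
    hFc.mono (prod_mono hsub (subset_refl _))
  have hsI : s ∈ Icc α β := ⟨by rw [hα]; linarith, by rw [hβ]; linarith⟩
  have hD0 : 0 ≤ β - α := by linarith
  -- the solution
  obtain ⟨z, hz0, hz⟩ : ∃ z : ℝ → V, z s = a ∧
      ∀ t ∈ Icc α β, HasDerivWithinAt z (F t (z t)) (Icc α β) t := by
    have hPL : IsPicardLindelof F (⟨s, hsI⟩ : Icc α β) a (M.toNNReal * ⟨β - α, hD0⟩) 0
        M.toNNReal C.toNNReal := by
      refine ⟨fun t ht => (hL' t ht).lipschitzOnWith, fun y _ => ?_, fun t ht y _ => hM' t ht y, ?_⟩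
      · have h3 : ContinuousOn (fun t : ℝ => (t, y)) (Icc α β) := by fun_prop
        exact hFc'.continuousOn.comp h3 (fun t ht => ⟨ht, trivial⟩)
      · simp only [NNReal.coe_zero, sub_zero, NNReal.coe_mul]
        apply mul_le_mul_of_nonneg_left _ (NNReal.coe_nonneg _)
        apply max_le
        · show β - s ≤ β - α
          linarith [hsI.1]
        · show s - α ≤ β - α
          linarith [hsI.2]
    obtain ⟨z, hz0, hz⟩ := hPL.exists_eq_forall_mem_Icc_hasDerivWithinAt₀
    exact ⟨z, hz0, hz⟩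
  have hzc : ContinuousOn z (Icc α β) := fun t ht => (hz t ht).continuousWithinAt
  have hzd : ∀ t ∈ Ioo α β, HasDerivAt z (F t (z t)) t := fun t ht =>
    (hz t (Ioo_subset_Icc_self ht)).hasDerivAt (Icc_mem_nhds ht.1 ht.2)
  -- the bound by `G`
  have hGnn : ∀ t ∈ Ioo (-1 : ℝ) 0, 0 ≤ G t := by
    intro t ht
    obtain ⟨P, hP⟩ := hsl t ht
    refine le_trans ?_ hP.grad
    apply setIntegral_nonneg isOpen_ball.measurableSet
    intro y _
    unfold gsq
    positivity
  have hFG : ∀ t ∈ Ioo (-1 : ℝ) 0, ∀ x, ‖F t x‖ ≤ (1 + G t) / 2 := by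
    intro t ht x
    have hG0 := hGnn t ht
    have hsq : √(G t) ≤ (1 + G t) / 2 := by
      rw [Real.sqrt_le_left (by positivity)]
      nlinarith [sq_nonneg (1 - G t)]
    by_cases hx : x ∈ ball (0 : V) (1 / 2)
    · refine le_trans ?_ hsq
      obtain ⟨P, hP⟩ := hsl t ht
      have hx1 : x ∈ ball (0 : V) 1 := ball_subset_ball (by norm_num) hx
      rw [hF]
      simp only
      rw [norm_smul]
      have h1 : ‖zz x‖ ≤ 1 := by
        rw [Real.norm_eq_abs, abs_of_nonneg zz.nonneg]
        exact zz.le_one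
      have h2 : ‖v t x - W t x‖ ≤ √(G t) := by
        rw [pi_norm_le_iff_of_nonneg (Real.sqrt_nonneg _)]
        intro i
        exact hP.dD x hx1 i
      calc ‖zz x‖ * ‖v t x - W t x‖ ≤ 1 * √(G t) :=
            mul_le_mul h1 h2 (norm_nonneg _) zero_le_one
        _ = √(G t) := one_mul _
    · rw [hF0 t x hx, norm_zero]
      positivity
  have hstay : ∀ t ∈ Ioc (s - 1 / 8) s, z t ∈ ball (0 : V) (3 / 8) := by
    intro t ht
    have hts : t ≤ s := ht.2
    have hsubI : Icc t s ⊆ Icc α β := by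
      apply Icc_subset_Icc _ hsI.2
      rw [hα]; linarith [ht.1]
    have hsubI' : Ioo t s ⊆ Ioo α β := by
      intro τ hτ
      refine ⟨lt_of_le_of_lt ?_ hτ.1, lt_of_lt_of_le hτ.2 hsI.2⟩
      rw [hα]; linarith [ht.1]
    have hcF : ContinuousOn (fun τ => F τ (z τ)) (Icc α β) := by
      have h1 : ContinuousOn (fun τ => (τ, z τ)) (Icc α β) := continuousOn_id.prodMk hzc
      exact hFc'.continuousOn.comp h1 (fun τ hτ => ⟨hτ, trivial⟩)
    have hii : IntervalIntegrable (fun τ => F τ (z τ)) volume t s := by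
      apply ContinuousOn.intervalIntegrable
      rw [uIcc_of_le hts]
      exact hcF.mono hsubI
    have hftc := intervalIntegral.integral_eq_sub_of_hasDerivAt_of_le hts (hzc.mono hsubI)
      (fun τ hτ => hzd τ (hsubI' hτ)) hii
    have hsubG : Ioc t s ⊆ Ioo (-1 : ℝ) 0 := by
      intro τ hτ
      exact hsub (hsubI ⟨hτ.1.le, hτ.2⟩)
    have hGt : IntegrableOn G (Ioc t s) := hGi.mono_set hsubG
    have hb1 : ‖∫ τ in t..s, F τ (z τ)‖ ≤ ∫ τ in t..s, (1 + G τ) / 2 := by
      apply intervalIntegral.norm_integral_le_of_norm_le hts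
      · exact Filter.Eventually.of_forall fun τ hτ => hFG τ (hsubG hτ) _
      · rw [intervalIntegrable_iff_integrableOn_Ioc_of_le hts]
        have h1 : IntegrableOn (fun _ : ℝ => (1 : ℝ)) (Ioc t s) :=
          continuousOn_const.integrableOn_Icc.mono_set Ioc_subset_Icc_self
        exact (h1.add hGt).div_const 2
    have hb2 : ∫ τ in t..s, (1 + G τ) / 2 = ((s - t) + ∫ τ in Ioc t s, G τ) / 2 := by
      rw [intervalIntegral.integral_div, intervalIntegral.integral_of_le hts]
      have h1 : IntegrableOn (fun _ : ℝ => (1 : ℝ)) (Ioc t s) :=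
        continuousOn_const.integrableOn_Icc.mono_set Ioc_subset_Icc_self
      rw [integral_add h1 hGt]
      congr 2
      rw [setIntegral_const, smul_eq_mul, mul_one]
      simp [Measure.real, Real.volume_Ioc, hts]
    have hb3 : ∫ τ in Ioc t s, G τ ≤ ∫ τ in Ioo (-1 : ℝ) 0, G τ := by
      apply setIntegral_mono_set hGi
      · exact (ae_restrict_mem measurableSet_Ioo).mono fun τ hτ => hGnn τ hτ
      · exact Filter.Eventually.of_forall hsubG
    have hb4 : ‖z s - z t‖ ≤ 3 / 32 := by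
      rw [← hftc]
      refine hb1.trans ?_
      rw [hb2]
      have := ht.1
      linarith
    rw [mem_ball, dist_zero_right] at ha ⊢
    have hb5 : ‖z t‖ ≤ ‖z s‖ + ‖z s - z t‖ := by
      have h1 := norm_sub_le (z s) (z s - z t)
      rwa [sub_sub_cancel] at h1
    rw [hz0] at hb5
    rw [hz0] at hb4
    linarith
  -- continuation to the right
  have hcs : ContinuousAt z s :=
    (hzd s ⟨by rw [hα]; linarith, by rw [hβ]; linarith⟩).continuousAt
  have hev : ∀ᶠ t in nhds s, z t ∈ ball (0 : V) (3 / 8) := by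
    apply hcs.eventually_mem
    apply isOpen_ball.mem_nhds
    rw [hz0]
    exact ball_subset_ball (by norm_num) ha
  obtain ⟨η, hη, hball⟩ := Metric.eventually_nhds_iff_ball.1 hev
  refine ⟨z, hz0, min η (-s / 4), lt_min hη (by linarith), ?_, ?_, ?_⟩
  · have := min_le_right η (-s / 4)
    linarith
  · have h1 : ContDiffOn ℝ ((⊤ : ℕ∞) : WithTop ℕ∞) z (Icc α β) :=
      ODE.contDiffOn_enat_Icc_of_hasDerivWithinAt (n := ⊤) (u := univ) hFc' hz
        (fun _ _ => trivial)
    apply h1.mono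
    intro t ht
    have h2 := min_le_right η (-s / 4)
    constructor
    · rw [hα]; linarith [ht.1]
    · rw [hβ]; linarith [ht.2]
  · intro t ht
    have h2 := min_le_right η (-s / 4)
    have h3 := min_le_left η (-s / 4)
    have hmem : z t ∈ ball (0 : V) (3 / 8) := by
      rcases le_or_gt t s with h | h
      · exact hstay t ⟨ht.1, h⟩
      · apply hball
        rw [mem_ball, Real.dist_eq, abs_of_pos (by linarith)]
        linarith [ht.2]
    refine ⟨?_, hmem⟩
    have h4 := hzd t ⟨by rw [hα]; linarith [ht.1], by rw [hβ]; linarith [ht.2]⟩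
    have h5 : F t (z t) = fun i => v t (z t) i - W t (z t) i := by
      rw [hF]
      simp only
      rw [zz_one hmem, one_smul]
      rfl
    rw [h5] at h4
    exact h4

end Pool.Agent.W298.ME.PATH
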